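import Pool.Agent.Helper60_AK.StmtB
import Pool.Agent.Helper7_AK.A5
import Pool.Agent.Helper50_AK.B6

set_option autoImplicit false

/-!
Squad AK, module B2: synthesis. Sobolev sequences give C^s functions.
-/

namespace Pool.Agent.AK.H81

open Complex

theorem LamS (k : Z4) : 1 ≤ Lam 1 k := H7.Lam_one_le le_rfl k

theorem LamP (k : Z4) : 0 < Lam 1 k := H7.Lam_pos le_rfl k

theorem abs_le_Lam (k : Z4) (j : Fin 4) : |((k j : ℤ) : ℝ)| ≤ Lam 1 k := by
  apply Real.abs_le_sqrt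
  have h : ((k j : ℤ) : ℝ) ^ 2 ≤ sq4 k :=
    Finset.single_le_sum (f := fun i => ((k i : ℤ) : ℝ) ^ 2) (fun _ _ => sq_nonneg _)
      (Finset.mem_univ j)
  linarith

/-- the lattice sum -/
theorem lat_sum : Summable fun k : Z4 => Lam 1 k ^ (-6 : ℤ) := by
  set E := (Fin 4 → ℝ)
  set b : Module.Basis (Fin 4) ℝ E := Pi.basisFun ℝ (Fin 4) with hb
  set L : Submodule ℤ E := Submodule.span ℤ (Set.range b) with hL
  have hfin : Module.finrank ℤ L = 4 := by
    rw [ZLattice.rank ℝ L]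
    simp [E]
  have hmem : ∀ k : Z4, (fun i => ((k i : ℤ) : ℝ)) ∈ L := by
    intro k
    rw [hL, Module.Basis.mem_span_iff_repr_mem]
    intro i
    exact ⟨k i, by simp [hb]⟩
  have h1 := ZLattice.summable_norm_zpow L (-6) (by rw [hfin]; norm_num)
  have hinj : Function.Injective (fun k : Z4 => (⟨fun i => ((k i : ℤ) : ℝ), hmem k⟩ : L)) := by
    intro k l h
    funext i
    have h2 := congrArg (fun z : L => (z : E) i) h
    simpa using h2
  have h2 := h1.comp_injective hinj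
  refine Summable.of_norm_bounded_eventually h2 ?_
  have h3 : ({0}ᶜ : Set Z4) ∈ (Filter.cofinite : Filter Z4) := by
    simp [Filter.mem_cofinite]
  filter_upwards [h3] with k hk
  have hk0 : k ≠ 0 := by simpa using hk
  rw [Real.norm_of_nonneg (zpow_pos (LamP k) _).le]
  simp only [Function.comp]
  have h4 : ‖(⟨fun i => ((k i : ℤ) : ℝ), hmem k⟩ : L)‖ ≤ Lam 1 k := by
    rw [← Submodule.norm_coe]
    refine (pi_norm_le_iff_of_nonneg (LamP k).le).2 fun i => ?_
    rw [Real.norm_eq_abs]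
    exact abs_le_Lam k i
  have h5 : 0 < ‖(⟨fun i => ((k i : ℤ) : ℝ), hmem k⟩ : L)‖ := by
    rw [norm_pos_iff]
    intro h
    apply hk0
    apply hinj
    refine h.trans ?_
    ext i
    simp
    rfl
  rw [show (-6 : ℤ) = -((6 : ℕ) : ℤ) by norm_num, zpow_neg, zpow_neg, zpow_natCast, zpow_natCast]
  exact inv_anti₀ (by positivity) (pow_le_pow_left₀ h5.le h4 6)

/-- weighted absolute summability -/
theorem abs_sum {V : Type*} [NormedAddCommGroup V] {s : ℕ} {q : ℤ} {c : Z4 → V}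
    (hq : (s : ℤ) + 3 ≤ q) (hc : HS q c) :
    Summable fun k => Lam 1 k ^ s * ‖c k‖ := by
  have h1 := (hc.add lat_sum).mul_left (1 / 2)
  refine Summable.of_nonneg_of_le (fun k => ?_) (fun k => ?_) h1
  · have := LamP k
    positivity
  · have hP := LamP k
    have h2 : Lam 1 k ^ (2 * q) * Lam 1 k ^ (2 * ((s : ℤ) - q)) = (Lam 1 k ^ s) ^ 2 := by
      rw [← zpow_add₀ hP.ne', ← pow_mul, ← zpow_natCast]
      congr 1
      push_cast
      ring
    have h3 : Lam 1 k ^ (2 * ((s : ℤ) - q)) ≤ Lam 1 k ^ (-6 : ℤ) :=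
      zpow_le_zpow_right₀ (LamS k) (by omega)
    have h4 : (Lam 1 k ^ q) ^ 2 = Lam 1 k ^ (2 * q) := (H7.zpow_two_mul' hP q).symm
    have h5 : (Lam 1 k ^ ((s : ℤ) - q)) ^ 2 = Lam 1 k ^ (2 * ((s : ℤ) - q)) :=
      (H7.zpow_two_mul' hP _).symm
    have h6 : Lam 1 k ^ q * Lam 1 k ^ ((s : ℤ) - q) = Lam 1 k ^ s := by
      rw [← zpow_add₀ hP.ne', ← zpow_natCast]
      congr 1
      ring
    have h7 := sq_nonneg (Lam 1 k ^ q * ‖c k‖ - Lam 1 k ^ ((s : ℤ) - q))
    have h8 : (Lam 1 k ^ q * ‖c k‖ - Lam 1 k ^ ((s : ℤ) - q)) ^ 2 =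
        Lam 1 k ^ (2 * q) * ‖c k‖ ^ 2 + Lam 1 k ^ (2 * ((s : ℤ) - q))
          - 2 * (Lam 1 k ^ s * ‖c k‖) := by
      rw [← h4, ← h5, ← h6]
      ring
    rw [h8] at h7
    linarith

/-! ### characters -/

theorem norm_ch (k : Z4) (x : R4) : ‖ch k x‖ = 1 := by
  unfold ch
  have h : (2 * (Real.pi : ℂ) * Complex.I * (∑ i, ((k i : ℤ) : ℂ) * ((x i : ℝ) : ℂ))) =
      ((2 * Real.pi * ∑ i, ((k i : ℤ) : ℝ) * x i : ℝ) : ℂ) * Complex.I := by
    push_cast
    ring
  rw [h, Complex.norm_exp_ofReal_mul_I]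

theorem ch_add (k l : Z4) (x : R4) : ch (k + l) x = ch k x * ch l x := by
  unfold ch
  rw [← Complex.exp_add]
  congr 1
  rw [← mul_add, ← Finset.sum_add_distrib]
  congr 1
  refine Finset.sum_congr rfl fun i _ => ?_
  simp only [Pi.add_apply]
  push_cast
  ring

/-- the linear form of a character -/
noncomputable def lf (k : Z4) : R4 →L[ℝ] ℝ :=
  ∑ i, ((k i : ℤ) : ℝ) • (ContinuousLinearMap.proj i : R4 →L[ℝ] ℝ)

theorem lf_apply (k : Z4) (x : R4) : lf k x = ∑ i, ((k i : ℤ) : ℝ) * x i := by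
  simp [lf]

theorem norm_lf (k : Z4) : ‖lf k‖ ≤ 4 * Lam 1 k := by
  unfold lf
  refine (norm_sum_le _ _).trans ?_
  have h : ∀ i ∈ (Finset.univ : Finset (Fin 4)),
      ‖((k i : ℤ) : ℝ) • (ContinuousLinearMap.proj i : R4 →L[ℝ] ℝ)‖ ≤ Lam 1 k := by
    intro i _
    rw [norm_smul, Real.norm_eq_abs]
    have h1 : ‖(ContinuousLinearMap.proj i : R4 →L[ℝ] ℝ)‖ ≤ 1 := by
      refine ContinuousLinearMap.opNorm_le_bound _ zero_le_one fun x => ?_
      rw [one_mul]
      exact norm_le_pi_norm x i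
    calc |((k i : ℤ) : ℝ)| * ‖(ContinuousLinearMap.proj i : R4 →L[ℝ] ℝ)‖
        ≤ Lam 1 k * 1 := mul_le_mul (abs_le_Lam k i) h1 (norm_nonneg _) (LamP k).le
      _ = Lam 1 k := mul_one _
  refine (Finset.sum_le_sum h).trans ?_
  simp

/-- the one variable exponential -/
noncomputable def ex (t : ℝ) : ℂ := Complex.exp ((2 * (Real.pi : ℂ) * Complex.I) * (t : ℂ))

theorem ch_eq (k : Z4) (x : R4) : ch k x = ex (lf k x) := by
  unfold ch ex
  rw [lf_apply]
  push_cast
  rfl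

theorem ex_deriv (t : ℝ) : HasDerivAt ex ((2 * (Real.pi : ℂ) * Complex.I) * ex t) t := by
  have h1 : HasDerivAt (fun t : ℝ => (2 * (Real.pi : ℂ) * Complex.I) * (t : ℂ))
      (2 * (Real.pi : ℂ) * Complex.I) t := by
    simpa using (Complex.ofRealCLM.hasDerivAt (x := t)).const_mul (2 * (Real.pi : ℂ) * Complex.I)
  refine h1.cexp.congr_deriv ?_
  exact mul_comm _ _

theorem ex_smooth (n : WithTop ℕ∞) : ContDiff ℝ n ex := by
  unfold ex
  exact (contDiff_const.mul Complex.ofRealCLM.contDiff).cexp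

theorem ex_iter (n : ℕ) : iteratedDeriv n ex = fun t => (2 * (Real.pi : ℂ) * Complex.I) ^ n * ex t := by
  induction n with
  | zero => funext t; simp [iteratedDeriv_zero]
  | succ n ih =>
    rw [iteratedDeriv_succ, ih]
    funext t
    rw [((ex_deriv t).const_mul _).deriv, pow_succ]
    ring

theorem norm_ex (t : ℝ) : ‖ex t‖ = 1 := by
  unfold ex
  have h : (2 * (Real.pi : ℂ) * Complex.I) * (t : ℂ) = ((2 * Real.pi * t : ℝ) : ℂ) * Complex.I := by
    push_cast
    ring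
  rw [h, Complex.norm_exp_ofReal_mul_I]

theorem norm_iter_ex (n : ℕ) (t : ℝ) : ‖iteratedFDeriv ℝ n ex t‖ = (2 * Real.pi) ^ n := by
  rw [norm_iteratedFDeriv_eq_norm_iteratedDeriv, ex_iter, norm_mul, norm_pow, norm_ex, mul_one]
  congr 1
  rw [norm_mul, norm_mul, Complex.norm_I, Complex.norm_real, Real.norm_of_nonneg Real.pi_pos.le]
  norm_num

theorem norm_iter_ch (n : ℕ) (k : Z4) (x : R4) :
    ‖iteratedFDeriv ℝ n (ch k) x‖ ≤ (8 * Real.pi) ^ n * Lam 1 k ^ n := by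
  have h1 : ch k = ex ∘ (lf k) := by
    funext x
    exact ch_eq k x
  rw [h1, (lf k).iteratedFDeriv_comp_right (ex_smooth n) x le_rfl]
  refine (ContinuousMultilinearMap.norm_compContinuousLinearMap_le _ _).trans ?_
  rw [norm_iter_ex, Finset.prod_const, Finset.card_univ, Fintype.card_fin, ← mul_pow, ← mul_pow]
  refine pow_le_pow_left₀ (by positivity) ?_ n
  have := norm_lf k
  have h2 := Real.pi_pos
  nlinarith

theorem ch_smooth (k : Z4) (n : WithTop ℕ∞) : ContDiff ℝ n (ch k) := by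
  have h1 : ch k = ex ∘ (lf k) := by
    funext x
    exact ch_eq k x
  rw [h1]
  exact (ex_smooth n).comp (lf k).contDiff

theorem part1 (s : ℕ) (q : ℤ) (c : Z4 → ℂ) (hq : (s : ℤ) + 3 ≤ q) (hc : HS q c) :
    ContDiff ℝ (s : WithTop ℕ∞) (syn c) := by
  unfold syn
  have h : ContDiff ℝ ((s : ℕ∞) : WithTop ℕ∞) (fun x => ∑' k, ch k x * c k) := by
    refine contDiff_tsum (v := fun n k => (8 * Real.pi) ^ n * (Lam 1 k ^ n * ‖c k‖)) ?_ ?_ ?_
    · intro k
      exact (ch_smooth k _).mul contDiff_const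
    · intro n hn
      have hn' : n ≤ s := by exact_mod_cast hn
      exact (abs_sum (s := n) (q := q) (by omega) hc).mul_left _
    · intro n k x hn
      have h1 : (fun x => ch k x * c k) = c k • ch k := by
        funext x
        simp [mul_comm]
      rw [h1, iteratedFDeriv_const_smul_apply (ch_smooth k n).contDiffAt, norm_smul]
      have h2 := norm_iter_ch n k x
      calc ‖c k‖ * ‖iteratedFDeriv ℝ n (ch k) x‖ ≤ ‖c k‖ * ((8 * Real.pi) ^ n * Lam 1 k ^ n) :=
            mul_le_mul_of_nonneg_left h2 (norm_nonneg _)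
        _ = _ := by ring
  exact_mod_cast h

theorem ch_hasFDeriv (k : Z4) (x : R4) :
    HasFDerivAt (ch k) (((2 * (Real.pi : ℂ) * Complex.I) * ch k x) •
      (Complex.ofRealCLM.comp (lf k))) x := by
  have h1 : ch k = ex ∘ (lf k) := by
    funext x
    exact ch_eq k x
  have h2 := (ex_deriv (lf k x)).hasFDerivAt.comp x (lf k).hasFDerivAt
  rw [h1]
  refine h2.congr_fderiv ?_
  ext v
  simp [mul_comm]

theorem part4 (q : ℤ) (c : Z4 → ℂ) (j : Fin 4) (hc : HS q c) : HS (q - 1) (dj j c) := by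
  refine Summable.of_nonneg_of_le (fun k => ?_) (fun k => ?_) (Summable.mul_left ((2 * Real.pi) ^ 2) hc)
  · exact mul_nonneg (zpow_pos (LamP k) _).le (sq_nonneg _)
  · have h1 : ‖dj j c k‖ = 2 * Real.pi * |((k j : ℤ) : ℝ)| * ‖c k‖ := by
      unfold dj
      rw [norm_smul]
      congr 1
      rw [norm_mul, norm_mul, norm_mul, Complex.norm_I, Complex.norm_real, Complex.norm_intCast]
      rw [Real.norm_of_nonneg Real.pi_pos.le]
      norm_num
    rw [h1]
    have h2 : Lam 1 k ^ (2 * q) = Lam 1 k ^ (2 * (q - 1)) * Lam 1 k ^ 2 := by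
      rw [show 2 * q = 2 * (q - 1) + 2 by ring, zpow_add₀ (LamP k).ne']
      norm_cast
    rw [h2]
    have h3 := abs_le_Lam k j
    have h4 : |((k j : ℤ) : ℝ)| ^ 2 ≤ Lam 1 k ^ 2 := pow_le_pow_left₀ (abs_nonneg _) h3 2
    have h5 : 0 ≤ Lam 1 k ^ (2 * (q - 1)) := (zpow_pos (LamP k) _).le
    calc Lam 1 k ^ (2 * (q - 1)) * (2 * Real.pi * |((k j : ℤ) : ℝ)| * ‖c k‖) ^ 2
        = (2 * Real.pi) ^ 2 * (Lam 1 k ^ (2 * (q - 1)) * ‖c k‖ ^ 2) * |((k j : ℤ) : ℝ)| ^ 2 := by
          ring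
      _ ≤ (2 * Real.pi) ^ 2 * (Lam 1 k ^ (2 * (q - 1)) * ‖c k‖ ^ 2) * Lam 1 k ^ 2 :=
          mul_le_mul_of_nonneg_left h4 (by positivity)
      _ = _ := by ring

theorem part2 (q : ℤ) (c : Z4 → ℂ) (hq : 4 ≤ q) (hc : HS q c) (j : Fin 4) (x : R4) :
    DifferentiableAt ℝ (syn c) x ∧ pd j (syn c) x = syn (dj j c) x := by
  set f' : Z4 → R4 → (R4 →L[ℝ] ℂ) := fun k x =>
    (((2 * (Real.pi : ℂ) * Complex.I) * ch k x) * c k) • (Complex.ofRealCLM.comp (lf k)) with hf'
  have hder : ∀ k x, HasFDerivAt (fun y => ch k y * c k) (f' k x) x := by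
    intro k x
    have h1 := (ch_hasFDeriv k x).mul_const (c k)
    refine h1.congr_fderiv ?_
    ext v
    simp [hf']
    ring
  have hsum : Summable fun k => (8 * Real.pi) * (Lam 1 k ^ 1 * ‖c k‖) :=
    (abs_sum (s := 1) (q := q) (by push_cast; omega) hc).mul_left _
  have hbd : ∀ k x, ‖f' k x‖ ≤ (8 * Real.pi) * (Lam 1 k ^ 1 * ‖c k‖) := by
    intro k x
    rw [hf']
    simp only
    rw [norm_smul, norm_mul, norm_mul, norm_ch, mul_one]
    have h1 : ‖Complex.ofRealCLM.comp (lf k)‖ ≤ 4 * Lam 1 k := by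
      refine (ContinuousLinearMap.opNorm_comp_le _ _).trans ?_
      rw [Complex.ofRealCLM_norm, one_mul]
      exact norm_lf k
    have h2 : ‖2 * (Real.pi : ℂ) * Complex.I‖ = 2 * Real.pi := by
      rw [norm_mul, norm_mul, Complex.norm_I, Complex.norm_real,
        Real.norm_of_nonneg Real.pi_pos.le]
      norm_num
    rw [h2]
    have := Real.pi_pos
    calc 2 * Real.pi * ‖c k‖ * ‖Complex.ofRealCLM.comp (lf k)‖
        ≤ 2 * Real.pi * ‖c k‖ * (4 * Lam 1 k) := mul_le_mul_of_nonneg_left h1 (by positivity)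
      _ = _ := by ring
  have h0 : Summable fun k => ch k x * c k := by
    refine Summable.of_norm_bounded (g := fun k => Lam 1 k ^ 0 * ‖c k‖)
      (abs_sum (s := 0) (q := q) (by push_cast; omega) hc) fun k => ?_
    rw [norm_mul, norm_ch, pow_zero]
  have hmain := hasFDerivAt_tsum hsum hder hbd h0 x
  have hmain' : HasFDerivAt (syn c) (∑' k, f' k x) x := hmain
  refine ⟨hmain'.differentiableAt, ?_⟩
  unfold pd
  rw [hmain'.fderiv]
  have hsf : Summable fun k => f' k x := Summable.of_norm_bounded hsum fun k => hbd k x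
  have h5 := (ContinuousLinearMap.apply ℝ ℂ (Pi.single j 1 : R4)).map_tsum hsf
  have h6 : (∑' k, f' k x) (Pi.single j 1) = ∑' k, f' k x (Pi.single j 1) := by
    simpa using h5
  rw [h6]
  unfold syn
  refine tsum_congr fun k => ?_
  rw [hf']
  have h7 : lf k (Pi.single j 1) = ((k j : ℤ) : ℝ) := by
    rw [lf_apply]
    simp [Pi.single_apply]
  simp only [smul_apply, ContinuousLinearMap.comp_apply,
    Complex.ofRealCLM_apply, h7, smul_eq_mul, dj]
  push_cast
  ring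

theorem part5 (c d : Z4 → ℂ) (hc : HS 3 c) (hd : HS 3 d) (x : R4) :
    syn (fun k => c k + d k) x = syn c x + syn d x := by
  have h0 : ∀ e : Z4 → ℂ, HS 3 e → Summable fun k => ch k x * e k := by
    intro e he
    refine Summable.of_norm_bounded (g := fun k => Lam 1 k ^ 0 * ‖e k‖)
      (abs_sum (s := 0) (q := 3) (by norm_num) he) fun k => ?_
    rw [norm_mul, norm_ch, pow_zero]
  unfold syn
  rw [← (h0 c hc).tsum_add (h0 d hd)]
  exact tsum_congr fun k => mul_add _ _ _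

/-- rapidly decreasing sequences are absolutely summable with weights -/
theorem rap_sum {a : Z4 → ℂ} (ha : Rap a) (n : ℕ) : Summable fun k => Lam 1 k ^ n * ‖a k‖ := by
  obtain ⟨C, hC⟩ := ha (n + 6)
  refine Summable.of_nonneg_of_le (fun k => ?_) (fun k => ?_) (lat_sum.mul_left C)
  · have := LamP k
    positivity
  · have hP := LamP k
    have h1 := hC k
    have h2 : Lam 1 k ^ n * ‖a k‖ = (Lam 1 k ^ (n + 6) * ‖a k‖) * Lam 1 k ^ (-6 : ℤ) := by
      have h3 : Lam 1 k ^ (n + 6) * Lam 1 k ^ (-6 : ℤ) = Lam 1 k ^ n := by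
        rw [← zpow_natCast, ← zpow_add₀ hP.ne', ← zpow_natCast]
        congr 1
        push_cast
        ring
      calc Lam 1 k ^ n * ‖a k‖ = (Lam 1 k ^ (n + 6) * Lam 1 k ^ (-6 : ℤ)) * ‖a k‖ := by rw [h3]
        _ = _ := by ring
    rw [h2]
    exact mul_le_mul_of_nonneg_right h1 (zpow_pos hP _).le

theorem part3a (h4 : A4Stmt) {a : Z4 → ℂ} (ha : Rap a) (q : ℤ) (c : Z4 → ℂ) (hc : HS q c) :
    HS q (scv a c) := by
  set g : Z4 → ℝ := fun n => (2 * Lam 1 n) ^ q.natAbs * ‖a n‖ with hg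
  have hgs : Summable g := by
    have h := (rap_sum ha q.natAbs).mul_left (2 ^ q.natAbs)
    refine h.congr fun k => ?_
    rw [hg]
    simp only
    rw [mul_pow]
    ring
  have hg0 : ∀ n, 0 ≤ g n := fun n => by
    have := (LamP n).le
    rw [hg]; positivity
  set W : Z4 → ℂ := fun l => ((Lam 1 l ^ q : ℝ) : ℂ) * c l with hW
  have hWn : ∀ k, ‖W k‖ ^ 2 = Lam 1 k ^ (2 * q) * ‖c k‖ ^ 2 := by
    intro k
    rw [hW]
    simp only [norm_mul, Complex.norm_real, Real.norm_eq_abs]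
    rw [abs_of_pos (zpow_pos (LamP k) _), mul_pow, H7.zpow_two_mul' (LamP k)]
  set K : Z4 → Z4 → (ℂ →L[ℂ] ℂ) := fun k l =>
    (((Lam 1 k ^ q * Lam 1 l ^ (-q) : ℝ) : ℂ) * a (k - l)) • ContinuousLinearMap.id ℂ ℂ with hK
  have hKn : ∀ k l, ‖K k l‖ ≤ g (k - l) := by
    intro k l
    rw [hK]
    simp only [norm_smul, norm_mul, Complex.norm_real, Real.norm_eq_abs]
    have hid : ‖ContinuousLinearMap.id ℂ ℂ‖ = 1 := ContinuousLinearMap.norm_id
    rw [hid, mul_one, hg]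
    refine mul_le_mul_of_nonneg_right ?_ (norm_nonneg _)
    have hx := LamP k
    have hy := LamP l
    rw [← abs_mul, abs_of_pos (by positivity), zpow_neg, ← div_eq_mul_inv,
      div_le_iff₀ (by positivity), mul_comm]
    refine H7.zpow_cmp hx hy ?_ (H7.peetre le_rfl k l) ?_ q
    · have := LamS (k - l); linarith
    · rw [H7.Lam_one_sub]; exact H7.peetre le_rfl l k
  have hsum : Summable fun k => ‖W k‖ ^ 2 := by
    simp only [hWn]; exact hc
  obtain ⟨-, r2, -⟩ := h4 ℂ K g W hg0 hgs hKn hsum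
  have hKW : ∀ k l, K k l (W l) = ((Lam 1 k ^ q : ℝ) : ℂ) * (a (k - l) • c l) := by
    intro k l
    rw [hK, hW]
    simp only [smul_apply, ContinuousLinearMap.id_apply, smul_eq_mul]
    have h5 : ((Lam 1 l ^ (-q) : ℝ) : ℂ) * ((Lam 1 l ^ q : ℝ) : ℂ) = 1 := by
      rw [← Complex.ofReal_mul, ← zpow_add₀ (LamP l).ne', neg_add_cancel, zpow_zero,
        Complex.ofReal_one]
    rw [Complex.ofReal_mul]
    linear_combination (((Lam 1 k ^ q : ℝ) : ℂ) * a (k - l) * c l) * h5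
  have hsumKW : ∀ k, ∑' l, K k l (W l) = ((Lam 1 k ^ q : ℝ) : ℂ) * scv a c k := by
    intro k
    unfold scv
    rw [← tsum_mul_left]
    exact tsum_congr fun l => hKW k l
  refine r2.congr fun k => ?_
  rw [hsumKW, norm_mul, Complex.norm_real, Real.norm_eq_abs,
    abs_of_pos (zpow_pos (LamP k) _), mul_pow, H7.zpow_two_mul' (LamP k)]

theorem part3b {a : Z4 → ℂ} (ha : Rap a) (c : Z4 → ℂ) (hc : HS 3 c) (x : R4) :
    syn (scv a c) x = (∑' k, ch k x * a k) * syn c x := by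
  set F : Z4 → ℂ := fun k => ch k x * a k with hF
  set G : Z4 → ℂ := fun k => ch k x * c k with hG
  have hFs : Summable fun k => ‖F k‖ := by
    have h := rap_sum ha 0
    refine h.congr fun k => ?_
    rw [hF]
    simp only
    rw [norm_mul, norm_ch, pow_zero]
  have hGs : Summable fun k => ‖G k‖ := by
    have h := abs_sum (s := 0) (q := 3) (by norm_num) hc
    refine h.congr fun k => ?_
    rw [hG]
    simp only
    rw [norm_mul, norm_ch, pow_zero]
  have h1 : Summable fun p : Z4 × Z4 => F p.1 * G p.2 := summable_mul_of_summable_norm hFs hGs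
  let e : Z4 × Z4 ≃ Z4 × Z4 :=
    { toFun := fun p => (p.1 - p.2, p.2)
      invFun := fun p => (p.1 + p.2, p.2)
      left_inv := fun p => by simp
      right_inv := fun p => by simp }
  have h2 : Summable fun p : Z4 × Z4 => F (p.1 - p.2) * G p.2 := (e.summable_iff).2 h1
  have h3 : ∑' p : Z4 × Z4, F (p.1 - p.2) * G p.2 = ∑' p : Z4 × Z4, F p.1 * G p.2 :=
    e.tsum_eq (fun p : Z4 × Z4 => F p.1 * G p.2)
  have h4 : (∑' k, F k) * (∑' k, G k) = ∑' p : Z4 × Z4, F p.1 * G p.2 :=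
    tsum_mul_tsum_of_summable_norm hFs hGs
  have h5 : ∑' p : Z4 × Z4, F (p.1 - p.2) * G p.2 = ∑' k, ∑' l, F (k - l) * G l := h2.tsum_prod
  have h6 : syn (scv a c) x = ∑' k, ∑' l, F (k - l) * G l := by
    unfold syn scv
    refine tsum_congr fun k => ?_
    rw [← tsum_mul_left]
    refine tsum_congr fun l => ?_
    rw [hF, hG]
    simp only
    have h7 : ch k x = ch (k - l) x * ch l x := by
      rw [← ch_add, sub_add_cancel]
    rw [h7, smul_eq_mul]
    ring
  rw [h6, ← h5, h3, ← h4]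
  rfl

theorem b2 (h4 : A4Stmt) (h1 : B1Stmt) : B2Stmt := by
  refine ⟨part1, ?_, ?_, part4, part5⟩
  · intro q c hq hc j x
    exact part2 q c hq hc j x
  · intro q c f hq hc hf
    obtain ⟨ha, hs⟩ := h1.1 f hf
    refine ⟨part3a h4 ha q c hc, fun x => ?_⟩
    rw [part3b ha c (H50.HS_mono hq hc) x, (hs x).tsum_eq]

end Pool.Agent.AK.H81
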